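import Mathlib
import Pool.Agent.Y647.RG.Dress

/-!
# The Dress conjecture for claw-free graphs

The rank of a claw-free graph which is closed in the generic rigidity matroid of `ℝ³` is given by
its maximal cliques with at least five vertices, as conjectured by Dress.
-/

set_option autoImplicit false

namespace Pool.Agent.Results.MP_d237f6_co.DressClawFree

open Finset Pool.Agent.H789R5 Pool.Agent.H283R2.DR

/-- no vertex has three pairwise non-adjacent neighbours -/
def ClawFree {V : Type} (G : SimpleGraph V) : Prop :=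
  ∀ v a b c, G.Adj v a → G.Adj v b → G.Adj v c → a ≠ b → a ≠ c → b ≠ c →
    G.Adj a b ∨ G.Adj a c ∨ G.Adj b c

/-- `G` is closed in the generic rigidity matroid of `ℝ³`: adding any missing edge raises the rank
(by one). -/
def Closed {V : Type} [Fintype V] (G : SimpleGraph V) : Prop :=
  ∀ u v, u ≠ v → ¬ G.Adj u v → genRank 3 (G ⊔ SimpleGraph.edge u v) = genRank 3 G + 1

/-- `X` is the vertex set of an inclusion-maximal clique with at least five vertices. -/
def MaxClique5 {V : Type} (G : SimpleGraph V) (X : Finset V) : Prop :=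
  5 ≤ X.card ∧ G.IsClique (X : Set V) ∧ ∀ Y : Finset V, G.IsClique (Y : Set V) → X ⊆ Y → Y = X

open Classical in
/-- the number of maximal cliques with at least five vertices which contain both ends of `e` -/
noncomputable def degX {V : Type} [Fintype V] (G : SimpleGraph V) (e : Sym2 V) : ℕ :=
  (univ.filter fun X : Finset V => MaxClique5 G X ∧ ∀ w ∈ e, w ∈ X).card

open Classical in
/-- the number `cval(G)` of Dress -/
noncomputable def cval {V : Type} [Fintype V] (G : SimpleGraph V) : ℤ :=
  (∑ X ∈ univ.filter (fun X : Finset V => MaxClique5 G X), (3 * (X.card : ℤ) - 6)) +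
    ((G.edgeFinset.filter fun e => degX G e = 0).card : ℤ) -
    ∑ e ∈ G.edgeFinset, if 2 ≤ degX G e then (degX G e : ℤ) - 1 else 0

open Pool.Agent.Y647.RG in
/-- **The Dress conjecture holds for claw-free graphs**: `r₃(G) = cval(G)` for every claw-free graph
which is closed in the generic rigidity matroid of `ℝ³`. -/
theorem result (V : Type) [Fintype V] (G : SimpleGraph V) (hc : ClawFree G) (hcl : Closed G) :
    (genRank 3 G : ℤ) = cval G := by
  classical
  obtain ⟨p, hp⟩ := exists_mg V 3
  obtain ⟨h1, h2, h3⟩ := dress_aux hp hc (fun u v huv hn => by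
    rw [hcl u v huv hn]
    exact Nat.lt_succ_self _)
  have hmc : ∀ X, X ∈ mcs G ↔ MaxClique5 G X := fun X => mem_mcs
  have hset : (univ.filter fun X : Finset V => MaxClique5 G X) = mcs G := by
    ext X
    rw [Finset.mem_filter, hmc]
    exact ⟨fun h => h.2, fun h => ⟨Finset.mem_univ _, h⟩⟩
  have hpr : ∀ e ∈ G.edgeFinset, ∀ X : Finset V, e ∈ pr X ↔ ∀ w ∈ e, w ∈ X := by
    intro e he X
    induction e using Sym2.ind with
    | _ a b =>
      have hab : G.Adj a b := by
        rwa [SimpleGraph.mem_edgeFinset, SimpleGraph.mem_edgeSet] at he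
      rw [mem_pr]
      constructor
      · rintro ⟨ha, hb, -⟩ w hw
        rw [Sym2.mem_iff] at hw
        rcases hw with rfl | rfl
        · exact ha
        · exact hb
      · intro h
        exact ⟨h a (Sym2.mem_mk_left a b), h b (Sym2.mem_mk_right a b), hab.ne⟩
  have hdeg : ∀ e ∈ G.edgeFinset, degX G e = ((mcs G).filter fun X => e ∈ pr X).card := by
    intro e he
    unfold degX
    congr 1
    ext X
    rw [Finset.mem_filter, Finset.mem_filter, hmc, hpr e he]
    exact ⟨fun h => h.2, fun h => ⟨Finset.mem_univ _, h⟩⟩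
  have hdeg2 : ∀ e ∈ G.edgeFinset, degX G e ≤ 2 := by
    intro e he
    rw [hdeg e he]
    induction e using Sym2.ind with
    | _ a b =>
      refine (Finset.card_le_card ?_).trans (h1 a)
      intro X hX
      rw [Finset.mem_filter, mem_pr] at hX
      exact Finset.mem_filter.2 ⟨hX.1, hX.2.1⟩
  -- the edges in no clique
  have hF : (G.edgeFinset.filter fun e => degX G e = 0) =
      G.edgeFinset.filter fun e => ∀ X ∈ mcs G, e ∉ pr X := by
    apply Finset.filter_congr
    intro e he
    rw [hdeg e he, Finset.card_eq_zero, Finset.filter_eq_empty_iff]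
  -- the hinges
  have hH : ∑ q ∈ (mcs G).offDiag, Pool.Agent.W824.BJ.rho (q.1 ∩ q.2).card =
      ∑ e ∈ G.edgeFinset, 2 * (if 2 ≤ degX G e then degX G e - 1 else 0) := by
    have e1 : ∀ q ∈ (mcs G).offDiag, Pool.Agent.W824.BJ.rho (q.1 ∩ q.2).card =
        ∑ e ∈ G.edgeFinset, if e ∈ pr q.1 ∧ e ∈ pr q.2 then 1 else 0 := by
      intro q hq
      rw [Finset.mem_offDiag] at hq
      have h4 := h2 q.1 hq.1 q.2 hq.2.1 hq.2.2
      rw [rho_le4 (by omega), ← card_pr, ← Finset.card_filter]
      congr 1
      ext e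
      rw [Finset.mem_filter]
      induction e using Sym2.ind with
      | _ a b =>
        rw [mem_pr, mem_pr, mem_pr, Finset.mem_inter, Finset.mem_inter,
          SimpleGraph.mem_edgeFinset, SimpleGraph.mem_edgeSet]
        constructor
        · rintro ⟨ha, hb, hab⟩
          exact ⟨((hmc _).1 hq.1).2.1 ha.1 hb.1 hab, ⟨ha.1, hb.1, hab⟩, ha.2, hb.2, hab⟩
        · rintro ⟨-, ha, hb⟩
          exact ⟨⟨ha.1, hb.1⟩, ⟨ha.2.1, hb.2.1⟩, ha.2.2⟩
    rw [Finset.sum_congr rfl e1, Finset.sum_comm]
    apply Finset.sum_congr rfl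
    intro e he
    rw [← Finset.card_filter]
    have e2 : ((mcs G).offDiag.filter fun q => e ∈ pr q.1 ∧ e ∈ pr q.2) =
        ((mcs G).filter fun X => e ∈ pr X).offDiag := by
      ext q
      rw [Finset.mem_filter, Finset.mem_offDiag, Finset.mem_offDiag, Finset.mem_filter,
        Finset.mem_filter]
      tauto
    rw [e2, Finset.offDiag_card, ← hdeg e he]
    have e3 := hdeg2 e he
    interval_cases degX G e <;> simp
  have hR : ∀ X ∈ mcs G, ((Pool.Agent.W824.BJ.rho X.card : ℕ) : ℤ) = 3 * (X.card : ℤ) - 6 := by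
    intro X hX
    have h4 := ((hmc X).1 hX).1
    unfold Pool.Agent.W824.BJ.rho
    rw [if_neg (by omega), if_neg (by omega)]
    omega
  unfold cval
  rw [hset, hF]
  have e4 : (∑ X ∈ mcs G, (3 * (X.card : ℤ) - 6)) =
      ((∑ X ∈ mcs G, Pool.Agent.W824.BJ.rho X.card : ℕ) : ℤ) := by
    rw [Nat.cast_sum]
    exact Finset.sum_congr rfl fun X hX => (hR X hX).symm
  have e5 : (∑ e ∈ G.edgeFinset, if 2 ≤ degX G e then (degX G e : ℤ) - 1 else 0) =
      ((∑ e ∈ G.edgeFinset, (if 2 ≤ degX G e then degX G e - 1 else 0) : ℕ) : ℤ) := by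
    rw [Nat.cast_sum]
    apply Finset.sum_congr rfl
    intro e _
    split_ifs with h
    · omega
    · rfl
  rw [e4, e5]
  rw [hH, ← Finset.mul_sum] at h3
  have e6 : (G.edgeFinset.filter fun e => ∀ X ∈ mcs G, e ∉ pr X).card =
      (G.edgeFinset.filter fun e => ∀ X ∈ mcs G, e ∉ pr X).card := rfl
  omega

end Pool.Agent.Results.MP_d237f6_co.DressClawFree
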