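import Mathlib
import Pool.Agent.Y530.TM.K
import Pool.Agent.Y647.TM.Drs

/-!
# The Dress conjecture for graphs composed of rigid parts

The rank of a graph which is composed of rigid parts and closed in the generic rigidity matroid of
`ℝ³` is given by its maximal cliques with at least five vertices, as conjectured by Dress. In such a
closed graph the parts are cliques; each vertex has at most two neighbours outside its part, or all
edges from it to other parts are in bundles of `n ≥ 3` edges between two parts.

The bookkeeping with the maximal cliques (`Pool.Agent.Y647.TM.Drs`) is due to helper647.
-/

set_option autoImplicit false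

namespace Pool.Agent.Results.MP_d237f6_co.DressRigidParts

open Pool.Agent.H789R5 Pool.Agent.H283R2.DR Pool.Agent.Y530.TM

/-- **The Dress conjecture holds for graphs composed of rigid parts**: `r₃(G) = cval(G)` for every
graph which is composed of rigid parts and closed in the generic rigidity matroid of `ℝ³`. -/
theorem result (V : Type) [Fintype V] (G : SimpleGraph V) (hG : Composed G) (hcl : Closed G) :
    (genRank 3 G : ℤ) = cval G := by
  obtain ⟨C, _, γ, hγ⟩ := composed V G hG
  exact Pool.Agent.Y647.TM.Drs.t V C G γ hcl hγ

end Pool.Agent.Results.MP_d237f6_co.DressRigidParts
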